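import Pool.Agent.H93.ES.Defs

/-!
# The inequality of Bessel from the entropy decrement for samples of words (MP_c59857_nt):
statements
-/

set_option autoImplicit false

namespace Pool.Agent.H93.ES

open Finset Pool.Agent.H18.MR Pool.Agent.H93.DE Pool.Agent.H6.N4D

/-! ## Entropy of words and of tuples of words -/

/-- FAM. Subadditivity of the conditional entropy for a family. -/
def T_FAM : Prop := ∀ (Ω α β : Type) [Fintype α] [DecidableEq α] [Fintype β] [DecidableEq β]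
  (μ : FAP Ω) (k : ℕ) (X : Fin k → Ω → α) (Z : Ω → β),
  ent μ (fun ω => ((fun i => X i ω : Fin k → α), Z ω)) - ent μ Z ≤
    ∑ i, (ent μ (fun ω => (X i ω, Z ω)) - ent μ Z)

/-- CND. The conditional entropy decreases if one knows more. -/
def T_CND : Prop := ∀ (Ω α β β' : Type) [Fintype α] [DecidableEq α] [Fintype β] [DecidableEq β]
  [Fintype β'] [DecidableEq β'] (μ : FAP Ω) (X : Ω → α) (Z : Ω → β) (g : β → β'),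
  ent μ (fun ω => (X ω, Z ω)) - ent μ Z ≤
    ent μ (fun ω => (X ω, g (Z ω))) - ent μ (fun ω => g (Z ω))

/-- STA. A tuple of words has at most the entropy of its words. -/
def T_STA : Prop := ∀ (N R L M : ℕ) [NeZero N] (x : ZMod N → Bool) (d : Fin R → ℕ),
  0 < M → M ∣ N → hc (tup x d) L M ≤ R * hc x L M

/-- MNT. Long words, more primes. -/
def T_MNT : Prop := ∀ (N k L M M' : ℕ) [NeZero N] (x : ZMod N → Bool),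
  0 < M' → M ∣ M' → M' ∣ N → hc x (k * L) M' ≤ k * hc x L M

/-- LVD. The decrement between two octaves. -/
def T_LVD : Prop := ∀ (γ : Type) [Fintype γ] [DecidableEq γ] (N a b : ℕ) [NeZero N]
  (x : ZMod N → γ), a ≤ b → primorial (2 ^ b) ∣ N →
  ∑ m ∈ Ico a b, info x (2 ^ m) (primorial (2 ^ m)) (pr m) / 2 ^ m ≤
    hc x (2 ^ a) (primorial (2 ^ a)) / 2 ^ a - hc x (2 ^ b) (primorial (2 ^ b)) / 2 ^ b

/-- END. The long word is covered by samples. -/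
def T_END : Prop := ∀ (N R D L M : ℕ) [NeZero N] (x : ZMod N → Bool),
  0 < M → M ∣ N → 0 < D → 0 < L → L ∣ D →
  hc x (R * D) M ≤ D / L * avE R D (fun e => hc (tup x (pos e)) L M) + R * L * Real.log 2

/-- CHA. All levels: the information of the samples is at most the entropy of the words at the
beginning. -/
def T_CHA : Prop := ∀ (N K : ℕ) [NeZero N] (x : ZMod N → Bool) (w : ℕ → ℕ),
  10 ^ 5 ≤ w 0 → (∀ j, j + 1 < K → 400 * w j ≤ w (j + 1)) →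
  (∀ j < K, primorial (2 ^ (w j / 200)) ∣ N) →
  ∑ j ∈ range K, inf x (w j) ≤
    ent (unif N) (fun n => wd x (2 ^ (w 0 / 400)) n) / 2 ^ (w 0 / 400) + (1 / 2) ^ (w 0 / 4)

/-! ## The inequality of Donsker and Varadhan -/

/-- DVF. The inequality of Donsker and Varadhan. -/
def T_DVF : Prop := ∀ (Ω α β : Type) [Fintype α] [DecidableEq α] [Fintype β] [DecidableEq β]
  (μ : FAP Ω) (X : Ω → α) (Y : Ω → β) (f : α → β → ℝ),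
  ∑ a, ∑ b, law μ (fun ω => (X ω, Y ω)) (a, b) * f a b ≤
    mi μ X Y + ∑ a, law μ X a * Real.log (∑ b, law μ Y b * Real.exp (f a b))

/-- DVO. Tests for the primes of one octave, with a label of the point. -/
def T_DVO : Prop := ∀ (N R m A : ℕ) [NeZero N] (x : ZMod N → Bool) (d : Fin R → ℕ)
  (l : ZMod N → Fin A) (t : ℕ → (Fin (2 ^ m) → Fin R → Bool) → Fin A → ℕ → ℝ),
  primorial (2 ^ (m + 1)) ∣ N →
  avZ (fun n => ∑ q ∈ oct m, t q (wd (tup x d) (2 ^ m) n) (l n) (n.val % q)) ≤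
    info (tup x d) (2 ^ m) (primorial (2 ^ m)) (pr m) + Real.log A +
      avZ (fun n => ∑ q ∈ oct m, Real.log
        ((∑ r ∈ range q, Real.exp (t q (wd (tup x d) (2 ^ m) n) (l n) r)) / q))

/-! ## Samples -/

/-- HFC. The exponential moment of the square of the mean of a sample. -/
def T_HFC : Prop := ∀ (R D : ℕ) (y : Fin R → Fin D → ℂ) (κ : ℝ), 1 ≤ D → 0 ≤ κ →
  1000 * κ ≤ R → (∀ r i, ‖y r i‖ ≤ 3) →
  avE R D (fun e => Real.exp (κ * ‖(∑ r, y r (e r)) / R‖ ^ 2)) ≤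
    4 * Real.exp (2 * κ * ‖(∑ r, (∑ i, y r i) / D) / R‖ ^ 2)

/-- HFT. The tail of the mean of a sample. -/
def T_HFT : Prop := ∀ (R D : ℕ) (y : Fin R → Fin D → ℂ) (δ : ℝ), 1 ≤ D → 0 < δ →
  (∀ r i, ‖y r i‖ ≤ 2) →
  avE R D (fun e => EB.ind (δ ≤ ‖(∑ r, y r (e r)) / R - (∑ r, (∑ i, y r i) / D) / R‖)) ≤
    4 * Real.exp (-(δ ^ 2 * R / 64))

/-- LSV. The large sieve for the classes modulo the primes of an octave. -/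
def T_LSV : Prop := ∀ (m T : ℕ) (f : ℕ → ℂ), 2 ^ (4 * m + 4) ≤ T → (∀ t, ‖f t‖ ≤ 1) →
  ∑ q ∈ oct m, (∑ r ∈ range q, ‖(∑ t ∈ range T, f t * (DR q (r + t) : ℂ)) / T‖ ^ 2) / q ≤ 2

/-- the weight of the place `t` in the mean over the samples of the blocks of length `2 ^ m` which
begin before `K` -/
noncomputable def wt (m K t : ℕ) : ℝ :=
  (((range K).filter (fun p => p ≤ t ∧ t < p + 2 ^ m)).card : ℝ) / 2 ^ m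

/-- MEA. The mean over the samples is a mean over the window. -/
def T_MEA : Prop := ∀ (w m k : ℕ) (f : ℕ → ℝ) (c : ℕ → ℂ), 10 ^ 5 ≤ w → m < w / 200 →
  k ≤ 2 ^ rho w →
  (∑ e : Fin (2 ^ rho w) → Fin (2 ^ (w - rho w)), smp f m c e k) /
      ((2 : ℂ) ^ (w - rho w)) ^ (2 ^ rho w) =
    (∑ t ∈ range (2 ^ w + 2 ^ m), ((f t * wt m (k * 2 ^ (w - rho w)) t : ℝ) : ℂ) * c t) / 2 ^ w

/-- EXA. The exponential moments of the tests (A) under independence. -/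
def T_EXA : Prop := ∃ (C : ℝ) (w₀ : ℕ), 1 ≤ C ∧ ∀ (w m : ℕ) (f : ℕ → ℝ) (α : ℝ), w₀ ≤ w →
  w / 400 ≤ m → m < w / 200 → (∀ t, |f t| ≤ 1) →
  ∑ q ∈ oct m, (∑ r₀ ∈ range q, avE (2 ^ rho w) (2 ^ (w - rho w)) (fun e =>
      ∑ k ∈ range (2 ^ rho w + 1), Real.exp ((w : ℝ) / 10 ^ 6 * ‖smp f m (kA q r₀ α) e k‖ ^ 2))) / q
    ≤ C * (2 ^ rho w + 1) * (oct m).card

/-- ABL. Weights of bounded variation: partial sums of the strata suffice. -/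
def T_ABL : Prop := ∃ w₀ : ℕ, ∀ (w m q r₀ : ℕ) (f : ℕ → ℝ) (α V : ℝ) (g : ℕ → ℂ), w₀ ≤ w →
  m < w / 200 → q ∈ oct m → (∀ t, |f t| ≤ 1) → 0 ≤ V → (∀ t < 2 ^ w, ‖g t‖ ≤ 1) →
  ∑ t ∈ range (2 ^ w - 1), ‖g (t + 1) - g t‖ ≤ V →
  ∃ k ≤ 2 ^ rho w, ‖wm f w (fun t => kA q r₀ α t * g t)‖ ^ 2 ≤
    2 * (1 + V) ^ 2 * (avE (2 ^ rho w) (2 ^ (w - rho w)) (fun e =>
      ‖smp f m (kA q r₀ α) e k‖ ^ 2) + 100 / (2 ^ rho w) ^ 2)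

/-- QSU. The sum of the reciprocals of the primes of a level is bounded. -/
def T_QSU : Prop := ∃ W : ℝ, 0 < W ∧ ∀ w : ℕ, ∑ q ∈ EB.QQ w, 1 / (q : ℝ) ≤ W

/-- LVA. One level, tests (A): frequencies independent of the prime. -/
def T_LVA : Prop := ∀ V : ℝ, 0 ≤ V → ∃ (C : ℝ) (w₀ : ℕ), 0 < C ∧ ∀ (N w : ℕ) [NeZero N]
  (x : ZMod N → Bool) (α : ZMod N → ℝ) (g : ZMod N → ℕ → ℕ → ℂ), w₀ ≤ w →
  primorial (2 ^ (w / 200)) ∣ N →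
  (∀ n, ∀ q ∈ EB.QQ w, (∀ t < 2 ^ w, ‖g n q t‖ ≤ 1) ∧
    ∑ t ∈ range (2 ^ w - 1), ‖g n q (t + 1) - g n q t‖ ≤ V) →
  avZ (fun n => ∑ q ∈ EB.QQ w, 1 / (q : ℝ) *
      ‖wm (ltr x n) w (fun t => kA q n.val (α n) t * g n q t)‖ ^ 2) ≤
    C * (inf x w + Real.log w / w)

/-- COV. Four numbers cover the large Fourier coefficients. -/
def T_COV : Prop := ∃ C₀ : ℝ, 0 < C₀ ∧ ∀ (w : ℕ) (f : ℕ → ℝ), (∀ t, |f t| ≤ 1) →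
  ∃ S : Fin 4 → ℝ, Cov f w S C₀

open Classical in
/-- DET. Under independence a class modulo `q` has rarely a large correlation with a frequency
far from the large Fourier coefficients of the window. -/
def T_DET : Prop := ∀ C₀ : ℝ, 0 < C₀ → ∃ (C₁ : ℝ) (w₀ : ℕ), C₀ ≤ C₁ ∧
  ∀ (w m : ℕ) (f : ℕ → ℝ) (S : Fin 4 → ℝ), w₀ ≤ w → w / 400 ≤ m → m < w / 200 →
  (∀ t, |f t| ≤ 1) → Cov f w S C₀ →
  ∑ q ∈ oct m, (((range q).filter (fun r₀ => ∃ β : ℝ, Far q w S C₁ β ∧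
      61 / 100 ≤ ‖wm f w (kB q r₀ β)‖)).card : ℝ) / q ≤ (1 / 2) ^ (m / 8) * (oct m).card

/-- LVB. One level, tests (B): far frequencies. -/
def T_LVB : Prop := ∀ C₀ : ℝ, 0 < C₀ → ∃ (C C₁ : ℝ) (w₀ : ℕ), 0 < C ∧ 0 < C₁ ∧
  ∀ (N w : ℕ) [NeZero N] (x : ZMod N → Bool) (S : ZMod N → Fin 4 → ℝ), w₀ ≤ w →
  primorial (2 ^ (w / 200)) ∣ N → (∀ n, Cov (ltr x n) w (S n) C₀) →
  avZ (fun n => ∑ q ∈ EB.QQ w, 1 / (q : ℝ) * EB.ind (∃ β : ℝ, Far q w (S n) C₁ β ∧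
      63 / 100 ≤ ‖wm (ltr x n) w (kB q n.val β)‖)) ≤ C * inf x w + (1 / 2) ^ (w / 10 ^ 5)

/-- LV. One level, tests with the best lifts of given frequencies. -/
def T_LV : Prop := ∃ (C : ℝ) (w₀ : ℕ), 0 < C ∧ ∀ (N w : ℕ) [NeZero N] (x : ZMod N → Bool)
  (β : ZMod N → ℕ → ℝ), w₀ ≤ w → primorial (2 ^ (w / 200)) ∣ N →
  ∃ α : ZMod N → ℕ → ℝ, (∀ n, ∀ q ∈ EB.QQ w, ∃ b : ℤ, α n q = β n q + (b : ℝ) / q) ∧
  avZ (fun n => ∑ q ∈ EB.QQ w, 1 / (q : ℝ) *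
      (EB.ind (63 / 100 ≤ ‖wm (ltr x n) w (kB q n.val (β n q))‖) *
        ‖wm (ltr x n) w (kA q n.val (α n q))‖ ^ 2)) ≤ C * (inf x w + Real.log w / w)

/-- CY. All levels on the cyclic group. -/
def T_CY : Prop := ∃ (C : ℝ) (w₀ : ℕ), 0 < C ∧ ∀ (N K : ℕ) [NeZero N] (x : ZMod N → Bool)
  (w : ℕ → ℕ), w₀ ≤ w 0 → (∀ j, j + 1 < K → 400 * w j ≤ w (j + 1)) →
  (∀ j < K, primorial (2 ^ (w j / 200)) ∣ N) →
  (∀ (α : ℕ → ZMod N → ℝ) (g : ℕ → ZMod N → ℕ → ℕ → ℂ),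
    (∀ j < K, ∀ n, ∀ q ∈ EB.QQ (w j), (∀ t < 2 ^ w j, ‖g j n q t‖ ≤ 1) ∧
      ∑ t ∈ range (2 ^ w j - 1), ‖g j n q (t + 1) - g j n q t‖ ≤ 10) →
    ∑ j ∈ range K, avZ (fun n => ∑ q ∈ EB.QQ (w j), 1 / (q : ℝ) *
      ‖wm (ltr x n) (w j) (fun t => kA q n.val (α j n) t * g j n q t)‖ ^ 2) ≤
    C * (ent (unif N) (fun n => wd x (2 ^ (w 0 / 400)) n) / 2 ^ (w 0 / 400) +
      Real.log (w 0) / w 0)) ∧
  (∀ β : ℕ → ZMod N → ℕ → ℝ, ∃ α : ℕ → ZMod N → ℕ → ℝ,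
    (∀ j < K, ∀ n, ∀ q ∈ EB.QQ (w j), ∃ b : ℤ, α j n q = β j n q + (b : ℝ) / q) ∧
    ∑ j ∈ range K, avZ (fun n => ∑ q ∈ EB.QQ (w j), 1 / (q : ℝ) *
      (EB.ind (63 / 100 ≤ ‖wm (ltr x n) (w j) (kB q n.val (β j n q))‖) *
        ‖wm (ltr x n) (w j) (kA q n.val (α j n q))‖ ^ 2)) ≤
    C * (ent (unif N) (fun n => wd x (2 ^ (w 0 / 400)) n) / 2 ^ (w 0 / 400) +
      Real.log (w 0) / w 0))

/-! ## From the cyclic group to the integers -/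

/-- the letters of the block number `i` of length `N` -/
noncomputable def blk (lam : ℕ → ℝ) (N i : ℕ) (k : ZMod N) : Bool :=
  open Classical in decide (lam (i * N + k.val) = 1)

/-- WIN. Windows inside a block. -/
def T_WIN : Prop := ∀ (N w i q : ℕ) [NeZero N] (lam : ℕ → ℝ) (α : ℝ) (g : ℕ → ℂ) (k : ZMod N),
  1 ≤ i → (∀ n, 1 ≤ n → lam n = 1 ∨ lam n = -1) → 1 ≤ q → q ∣ N → k.val + 2 ^ w ≤ N →
  EB.zz lam q (2 ^ w) (i * N + k.val - 1) α g =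
      ‖wm (ltr (blk lam N i) k) w (fun t => kA q k.val α t * g (i * N + k.val + t))‖ ∧
  ‖EB.crq lam q (2 ^ w) (i * N + k.val - 1) α‖ = ‖wm (ltr (blk lam N i) k) w (kB q k.val α)‖

/-- BLU. Upper bound of a logarithmic sum by the means over the blocks. -/
def T_BLU : Prop := ∀ (X N : ℕ) (F : ℕ → ℝ) (b : ℝ), 1 ≤ N → 3 ≤ X → 0 ≤ b →
  (∀ n, 0 ≤ F n ∧ F n ≤ b) →
  EB.lg X F ≤ 3 * b * (1 + Real.log N) +
    ∑ i ∈ Icc 1 (X / N - 1), 1 / (i : ℝ) * ((∑ k ∈ range N, F (i * N + k)) / N)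

/-- BLL. Lower bound. -/
def T_BLL : Prop := ∀ (X N : ℕ) (F : ℕ → ℝ), 1 ≤ N → (∀ n, 0 ≤ F n) →
  ∑ i ∈ Icc 1 (X / N - 1), 1 / (i : ℝ) * ((∑ k ∈ range N, F (i * N + k)) / N) ≤
    2 * EB.lg X F

/-- WN1. A net of the signs of sums of `R` exponentials. -/
def T_WN1 : Prop := ∀ R : ℕ, ∃ C : ℕ, 1 ≤ C ∧ ∀ L : ℕ, 1 ≤ L → ∃ 𝒞 : Finset (Fin L → Bool),
  (𝒞.card : ℝ) ≤ ((C * L : ℕ) : ℝ) ^ C ∧
  ∀ (b : ℕ → ℂ) (β : ℕ → ℝ), (∀ r, ‖b r‖ ≤ 1) → ∃ c ∈ 𝒞, ∀ v : Fin L → Bool,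
    (((univ : Finset (Fin L)).filter (fun t => v t ≠ c t)).card : ℝ) ≤
      5 / 4 * ∑ t : Fin L, ‖(sg (v t) : ℂ) - ∑ r ∈ range R, b r * ee (β r * (t : ℕ))‖ ^ 2

/-- WN2. The number of words near a given word. -/
def T_WN2 : Prop := ∀ (L : ℕ) (δ : ℝ) (c : Fin L → Bool), 0 < δ → δ ≤ 1 →
  (((univ : Finset (Fin L → Bool)).filter (fun v =>
    (((univ : Finset (Fin L)).filter (fun t => v t ≠ c t)).card : ℝ) ≤ δ * L)).card : ℝ) ≤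
    Real.exp (L * (δ + δ * Real.log (1 / δ)))

/-- WN3. The entropy of a variable which is usually in a given set. -/
def T_WN3 : Prop := ∀ (Ω α : Type) [Fintype α] [DecidableEq α] (μ : FAP Ω) (X : Ω → α)
  (T : Finset α), T.Nonempty →
  ent μ X ≤ Real.log T.card + μ.P {ω | X ω ∉ T} * Real.log (Fintype.card α) + Real.log 2

/-- WNT. The entropy of words near few models. -/
def T_WNT : Prop := ∀ δ : ℝ, 0 < δ → δ ≤ 1 / 2 → ∀ R : ℕ, ∃ s₀ : ℕ, ∀ (s N : ℕ) [NeZero N]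
  (x : ZMod N → Bool) (b : ZMod N → ℕ → ℂ) (β : ZMod N → ℕ → ℝ) (E : ZMod N → ℝ), s₀ ≤ s →
  (∀ n r, ‖b n r‖ ≤ 1) →
  (∀ n, (∑ t ∈ range (2 ^ s), ‖(ltr x n t : ℂ) - ∑ r ∈ range R, b n r * ee (β n r * t)‖ ^ 2) /
    2 ^ s ≤ E n) →
  ent (unif N) (fun n => wd x (2 ^ s) n) / 2 ^ s ≤ 4 * δ * Real.log (1 / δ) + avZ E / δ

/-- ENB. The entropy of the words of the blocks. -/
def T_ENB : Prop := ∀ ε : ℝ, 0 < ε → ∃ e : ℝ, 0 < e ∧ ∀ R : ℕ, ∃ s₀ : ℕ, ∀ s, s₀ ≤ s →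
  ∃ N₀ : ℕ, ∀ (X N : ℕ) [NeZero N] (lam : ℕ → ℝ), N₀ ≤ N → 2 * N ≤ X →
  (∀ n, 1 ≤ n → lam n = 1 ∨ lam n = -1) → EB.Base lam R (2 ^ s) e X →
  ∑ i ∈ Icc 1 (X / N - 1), 1 / (i : ℝ) *
      (ent (unif N) (fun n => wd (blk lam N i) (2 ^ s) n) / 2 ^ s) ≤ ε * Real.log X

/-- BK. The levels on one block of integers. -/
def T_BK : Prop := ∃ (C : ℝ) (w₀ : ℕ), 0 < C ∧ ∀ (N K i : ℕ) [NeZero N] (lam : ℕ → ℝ)
  (w : ℕ → ℕ), 1 ≤ i → (∀ n, 1 ≤ n → lam n = 1 ∨ lam n = -1) → w₀ ≤ w 0 →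
  (∀ j, j + 1 < K → 400 * w j ≤ w (j + 1)) → (∀ j < K, primorial (2 ^ (w j / 200)) ∣ N) →
  (∀ (α : ℕ → ℕ → ℝ) (g : ℕ → ℕ → ℕ → ℕ → ℂ),
    (∀ j < K, ∀ n, ∀ q ∈ EB.QQ (w j), EB.BV (2 ^ w j) n (g j n q)) →
    ∑ j ∈ range K, (∑ k ∈ range N, ∑ q ∈ EB.QQ (w j), 1 / (q : ℝ) *
      EB.zz lam q (2 ^ w j) (i * N + k) (α j (i * N + k)) (g j (i * N + k) q) ^ 2) / (N : ℝ) ≤
    C * (ent (unif N) (fun n => wd (blk lam N i) (2 ^ (w 0 / 400)) n) / 2 ^ (w 0 / 400) +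
      Real.log (w 0) / w 0 + (∑ j ∈ range K, (2 : ℝ) ^ w j) / (N : ℝ))) ∧
  (∀ β : ℕ → ℕ → ℕ → ℝ, ∃ α : ℕ → ℕ → ℕ → ℝ,
    (∀ j n, ∀ q ∈ EB.QQ (w j), ∃ b : ℤ, α j n q = β j n q + (b : ℝ) / q) ∧
    ∑ j ∈ range K, (∑ k ∈ range N, ∑ q ∈ EB.QQ (w j), 1 / (q : ℝ) *
      (EB.ind (63 / 100 ≤ ‖EB.crq lam q (2 ^ w j) (i * N + k) (β j (i * N + k) q)‖) *
        EB.zz lam q (2 ^ w j) (i * N + k) (α j (i * N + k) q) (fun _ => 1) ^ 2)) / (N : ℝ) ≤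
    C * (ent (unif N) (fun n => wd (blk lam N i) (2 ^ (w 0 / 400)) n) / 2 ^ (w 0 / 400) +
      Real.log (w 0) / w 0 + (∑ j ∈ range K, (2 : ℝ) ^ w j) / (N : ℝ)))

/-- EBS. The inequality of Bessel for levels of any number, below the logarithm. -/
def T_EBS : Prop := ∃ B : ℕ, 1 ≤ B ∧ ∀ ε : ℝ, 0 < ε → ∃ e : ℝ, 0 < e ∧ ∀ R : ℕ, ∃ s₀ : ℕ,
  ∀ s, s₀ ≤ s → ∃ X₀ : ℕ, ∀ (X K : ℕ) (lam : ℕ → ℝ) (m : ℕ → ℕ), X₀ ≤ X →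
    (∀ n, 1 ≤ n → lam n = 1 ∨ lam n = -1) → EB.Base lam R (2 ^ s) e X → B * s ≤ m 0 →
    (∀ i, i + 1 < K → B * m i ≤ m (i + 1)) → (∀ i < K, (4 : ℝ) ^ m i ≤ Real.log X) →
    (∀ (α : ℕ → ℕ → ℝ) (g : ℕ → ℕ → ℕ → ℕ → ℂ),
      (∀ i < K, ∀ n, ∀ q ∈ EB.QQ (m i), EB.BV (2 ^ m i) n (g i n q)) →
      EB.besSum lam X K m (fun i n _ => α i n) g ≤ ε * Real.log X) ∧
    (∀ β : ℕ → ℕ → ℕ → ℝ, ∃ α : ℕ → ℕ → ℕ → ℝ,
      (∀ i < K, ∀ n, ∀ q ∈ EB.QQ (m i), ∃ b : ℤ,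
        nd (α i n q - β i n q - (b : ℝ) / q) ≤ 1 / 10 ^ 4 / 2 ^ m i) ∧
      ∑ i ∈ range K, EB.lg X (fun n => ∑ q ∈ EB.QQ (m i), 1 / (q : ℝ) *
        (EB.ind (63 / 100 ≤ ‖EB.crq lam q (2 ^ m i) n (β i n q)‖) *
          EB.zz lam q (2 ^ m i) n (α i n q) (fun _ => 1) ^ 2)) ≤ ε * Real.log X)

/-- EN0. The energy is almost constant from a bounded scale to the powers of the logarithm. -/
def T_EN0 : Prop := ∃ B : ℕ, 1 ≤ B ∧ ∀ ε : ℝ, 0 < ε → ∃ e : ℝ, 0 < e ∧ ∀ R : ℕ, ∃ s₀ : ℕ,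
  ∀ s, s₀ ≤ s → ∃ X₀ : ℕ, ∀ (X : ℕ) (lam : ℕ → ℝ), X₀ ≤ X → Lio lam →
    EB.Base lam R (2 ^ s) e X → ∀ k₀ k : ℕ, B * s ≤ k₀ → k₀ ≤ k → (8 : ℝ) ^ k ≤ Real.log X →
      EB.t lam X k₀ - ε ≤ EB.t lam X k

end Pool.Agent.H93.ES
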