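import Pool.Agent.H93.ES.Targets

/-!
# Row CY: all levels on the cyclic group
-/

set_option autoImplicit false

open Finset Pool.Agent.H18.MR Pool.Agent.H93.DE Pool.Agent.H6.N4D Pool.Agent.H93 Pool.Agent.H93.ES

namespace Pool.Agent.H93.ES

lemma cy_pow (w : ℕ) (hw : 10 ^ 5 ≤ w) : (w : ℝ) ≤ 2 ^ (w / 4) := by
  have h1 : w / 16 < 2 ^ (w / 16) := Nat.lt_two_pow_self
  have h2 : 4 * (w / 16) ≤ w / 4 := by omega
  have h3 : w < 16 * (w / 16 + 1) := by omega
  have h4 : 16 * (w / 16 + 1) ≤ 2 ^ 4 * 2 ^ (w / 16) := by omega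
  have h5 : 2 ^ 4 * 2 ^ (w / 16) ≤ 2 ^ (w / 4) := by
    rw [← pow_add]
    exact Nat.pow_le_pow_right (by norm_num) (by omega)
  have h6 : w ≤ 2 ^ (w / 4) := by omega
  exact_mod_cast h6

lemma cy_log (w : ℕ) (hw : 10 ^ 5 ≤ w) : 1 ≤ Real.log w := by
  have h1 : Real.exp 1 ≤ w := by
    have := Real.exp_one_lt_d9
    have h2 : (10 ^ 5 : ℝ) ≤ w := by exact_mod_cast hw
    linarith
  have := Real.log_le_log (Real.exp_pos 1) h1
  rwa [Real.log_exp] at this

lemma cy_half (w : ℕ) (hw : 10 ^ 5 ≤ w) : (1 / 2 : ℝ) ^ (w / 4) ≤ Real.log w / w := by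
  have h1 := cy_pow w hw
  have h2 := cy_log w hw
  have hw0 : (0 : ℝ) < w := by
    have : 0 < w := by omega
    exact_mod_cast this
  calc (1 / 2 : ℝ) ^ (w / 4) = 1 / 2 ^ (w / 4) := by rw [div_pow, one_pow]
    _ ≤ 1 / w := one_div_le_one_div_of_le hw0 h1
    _ ≤ Real.log w / w := by gcongr

lemma cy_step (u v : ℕ) (hu : 10 ^ 5 ≤ u) (hv : 400 * u ≤ v) :
    Real.log v / v ≤ 1 / 2 * (Real.log u / u) := by
  have hu0 : (0 : ℝ) < u := by
    have : 0 < u := by omega
    exact_mod_cast this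
  have hu1 := cy_log u hu
  have hb : (10 ^ 5 : ℝ) ≤ u := by exact_mod_cast hu
  have hv' : (400 * u : ℝ) ≤ v := by exact_mod_cast hv
  have he := Real.exp_one_lt_d9
  have h1 := Real.log_div_self_antitoneOn (a := (400 * u : ℝ)) (b := (v : ℝ))
    (show Real.exp 1 ≤ (400 * u : ℝ) by linarith) (show Real.exp 1 ≤ (v : ℝ) by linarith) hv'
  refine h1.trans ?_
  have h400 : Real.log 400 ≤ 399 := by
    have := Real.log_le_sub_one_of_pos (show (0 : ℝ) < 400 by norm_num)
    linarith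
  have h2 : Real.log (400 * u) = Real.log 400 + Real.log u := by
    rw [Real.log_mul (by norm_num) hu0.ne']
  have h3 : Real.log 400 ≤ 7 := by
    have h4 : (400 : ℝ) ≤ Real.exp 7 := by
      have h5 := Real.exp_one_gt_d9
      have h6 : Real.exp 7 = Real.exp 1 ^ 7 := by
        rw [← Real.exp_nat_mul]; norm_num
      rw [h6]
      calc (400 : ℝ) ≤ 2.7 ^ 7 := by norm_num
        _ ≤ Real.exp 1 ^ 7 := by gcongr; linarith
    have := Real.log_le_log (by norm_num) h4
    rwa [Real.log_exp] at this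
  change Real.log (400 * u) / (400 * u) ≤ _
  rw [h2, div_le_iff₀ (by positivity)]
  have h7 : 1 / 2 * (Real.log u / u) * (400 * u) = 200 * Real.log u := by
    field_simp
    ring
  rw [h7]
  linarith

lemma cy_sum (K : ℕ) (w : ℕ → ℕ) (h0 : 10 ^ 5 ≤ w 0) (hw : ∀ j, j + 1 < K → 400 * w j ≤ w (j + 1)) :
    (∀ j < K, w 0 ≤ w j) ∧
    ∑ j ∈ range K, Real.log (w j) / w j ≤ 2 * (Real.log (w 0) / w 0) := by
  have hge : ∀ j, j < K → w 0 ≤ w j := by
    intro j
    induction j with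
    | zero => intro _; exact le_rfl
    | succ j ih =>
      intro hj
      have := ih (by omega)
      have := hw j hj
      omega
  refine ⟨hge, ?_⟩
  have hnn : 0 ≤ Real.log (w 0) / w 0 := by
    have := cy_log (w 0) h0
    positivity
  have h1 : ∀ j, j < K → Real.log (w j) / w j ≤ (1 / 2) ^ j * (Real.log (w 0) / w 0) := by
    intro j
    induction j with
    | zero => intro _; simp
    | succ j ih =>
      intro hj
      have h2 := ih (by omega)
      have h3 := cy_step (w j) (w (j + 1)) (h0.trans (hge j (by omega))) (hw j hj)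
      calc Real.log (w (j + 1)) / w (j + 1) ≤ 1 / 2 * (Real.log (w j) / w j) := h3
        _ ≤ 1 / 2 * ((1 / 2) ^ j * (Real.log (w 0) / w 0)) := by gcongr
        _ = (1 / 2) ^ (j + 1) * (Real.log (w 0) / w 0) := by ring
  calc ∑ j ∈ range K, Real.log (w j) / w j ≤
      ∑ j ∈ range K, (1 / 2) ^ j * (Real.log (w 0) / w 0) :=
        sum_le_sum fun j hj => h1 j (mem_range.1 hj)
    _ = (∑ j ∈ range K, (1 / 2 : ℝ) ^ j) * (Real.log (w 0) / w 0) := by rw [sum_mul]
    _ ≤ 2 * (Real.log (w 0) / w 0) := by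
        gcongr
        have := geom_sum_eq (show (1 / 2 : ℝ) ≠ 1 by norm_num) K
        rw [this]
        have h3 : (0 : ℝ) < (1 / 2) ^ K := by positivity
        rw [div_le_iff_of_neg (by norm_num)]
        linarith

theorem pf_CY (hA : T_LVA) (hL : T_LV) (hC : T_CHA) : T_CY := by
  obtain ⟨CA, wA, hCA, hA⟩ := hA 10 (by norm_num)
  obtain ⟨CL, wL, hCL, hL⟩ := hL
  refine ⟨4 * (CA + CL), 10 ^ 5 + wA + wL, by positivity, ?_⟩
  intro N K _ x w h0 hw hN
  have h5 : 10 ^ 5 ≤ w 0 := by omega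
  obtain ⟨hge, hlog⟩ := cy_sum K w h5 hw
  have hch := hC N K x w h5 hw hN
  have hhalf := cy_half (w 0) h5
  have hent : 0 ≤ ent (unif N) (fun n => wd x (2 ^ (w 0 / 400)) n) / 2 ^ (w 0 / 400) :=
    div_nonneg (ent_nonneg _ _) (by positivity)
  have hl0 : 0 ≤ Real.log (w 0) / w 0 := by
    have := cy_log (w 0) h5
    positivity
  set E := ent (unif N) (fun n => wd x (2 ^ (w 0 / 400)) n) / 2 ^ (w 0 / 400) with hE
  set L := Real.log (w 0) / w 0 with hLdef
  have key : ∑ j ∈ range K, (inf x (w j) + Real.log (w j) / w j) ≤ 3 * (E + L) := by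
    rw [sum_add_distrib]
    linarith
  constructor
  · intro α g hg
    calc _ ≤ ∑ j ∈ range K, CA * (inf x (w j) + Real.log (w j) / w j) := by
          refine sum_le_sum fun j hj => ?_
          have hj' := mem_range.1 hj
          exact hA N (w j) x (α j) (g j) (by have := hge j hj'; omega) (hN j hj')
            (hg j hj')
      _ = CA * ∑ j ∈ range K, (inf x (w j) + Real.log (w j) / w j) := by rw [mul_sum]
      _ ≤ CA * (3 * (E + L)) := by gcongr
      _ ≤ 4 * (CA + CL) * (E + L) := by 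
        have t1 := mul_nonneg hCL.le (add_nonneg hent hl0)
        have t2 := mul_nonneg hCA.le (add_nonneg hent hl0)
        nlinarith [t1, t2]
  · intro β
    have hex : ∀ j, ∃ α : ZMod N → ℕ → ℝ, j < K →
        (∀ n, ∀ q ∈ EB.QQ (w j), ∃ b : ℤ, α n q = β j n q + (b : ℝ) / q) ∧
        avZ (fun n => ∑ q ∈ EB.QQ (w j), 1 / (q : ℝ) *
          (EB.ind (63 / 100 ≤ ‖wm (ltr x n) (w j) (kB q n.val (β j n q))‖) *
            ‖wm (ltr x n) (w j) (kA q n.val (α n q))‖ ^ 2)) ≤
          CL * (inf x (w j) + Real.log (w j) / w j) := by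
      intro j
      by_cases hj : j < K
      · obtain ⟨α, h1, h2⟩ := hL N (w j) x (β j) (by have := hge j hj; omega) (hN j hj)
        exact ⟨α, fun _ => ⟨h1, h2⟩⟩
      · exact ⟨fun _ _ => 0, fun h => absurd h hj⟩
    choose α hα using hex
    refine ⟨α, fun j hj => (hα j hj).1, ?_⟩
    calc _ ≤ ∑ j ∈ range K, CL * (inf x (w j) + Real.log (w j) / w j) :=
          sum_le_sum fun j hj => (hα j (mem_range.1 hj)).2
      _ = CL * ∑ j ∈ range K, (inf x (w j) + Real.log (w j) / w j) := by rw [mul_sum]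
      _ ≤ CL * (3 * (E + L)) := by gcongr
      _ ≤ 4 * (CA + CL) * (E + L) := by 
        have t1 := mul_nonneg hCL.le (add_nonneg hent hl0)
        have t2 := mul_nonneg hCA.le (add_nonneg hent hl0)
        nlinarith [t1, t2]

end Pool.Agent.H93.ES
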