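import Pool.Agent.H93.DE.Targets
import Pool.Agent.H93.EB.Targets

/-!
# The inequality of Bessel from the entropy decrement for samples of words (MP_c59857_nt):
definitions

On the cyclic group `ZMod N` a window has the length `2 ^ w`; it is divided into
`R = 2 ^ rho w` strata of length `D = 2 ^ (w - rho w)`, and a sample takes one place in every
stratum.
-/

set_option autoImplicit false

namespace Pool.Agent.H93.ES

open Finset Pool.Agent.H18.MR Pool.Agent.H93.DE Pool.Agent.H6.N4D

/-- the sign of a letter -/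
def sg (b : Bool) : ℝ := if b then 1 else -1

/-- the mean over the cyclic group -/
noncomputable def avZ {N : ℕ} [NeZero N] (f : ZMod N → ℝ) : ℝ := (∑ n, f n) / N

/-- the field of the tuples of the letters at the distances `d` -/
def tup {N R : ℕ} (x : ZMod N → Bool) (d : Fin R → ℕ) (n : ZMod N) : Fin R → Bool :=
  fun r => x (n + (d r : ZMod N))

/-- the mean over the samples: one number below `D` for every stratum -/
noncomputable def avE (R D : ℕ) (F : (Fin R → Fin D) → ℝ) : ℝ := (∑ e, F e) / (D : ℝ) ^ R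

/-- the places of a sample, one in every stratum of length `D` -/
def pos {R D : ℕ} (e : Fin R → Fin D) : Fin R → ℕ := fun r => r * D + e r

/-- the logarithm of the number of strata of a window of length `2 ^ w` -/
def rho (w : ℕ) : ℕ := Nat.log 2 w + 30

/-- the information of the samples of a window of length `2 ^ w` on the residues modulo the primes
of the octaves between `w / 400` and `w / 200`, normalised -/
noncomputable def inf {N : ℕ} [NeZero N] (x : ZMod N → Bool) (w : ℕ) : ℝ :=
  ∑ m ∈ Ico (w / 400) (w / 200), avE (2 ^ rho w) (2 ^ (w - rho w)) (fun e =>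
    info (tup x (pos e)) (2 ^ m) (primorial (2 ^ m)) (pr m)) / (2 ^ rho w * 2 ^ m)

/-- the function `q 1_(q | n) - 1` -/
noncomputable def DR (q n : ℕ) : ℝ := (if q ∣ n then (q : ℝ) else 0) - 1

/-- the mean of the blocks of length `2 ^ m` of a sample, in the strata below `k`, for the
kernel `c` -/
noncomputable def smp {R D : ℕ} (f : ℕ → ℝ) (m : ℕ) (c : ℕ → ℂ) (e : Fin R → Fin D) (k : ℕ) :
    ℂ :=
  (∑ r : Fin R, if (r : ℕ) < k then
    (∑ s ∈ range (2 ^ m), (f (pos e r + s) : ℂ) * c (pos e r + s)) / 2 ^ m else 0) / R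

/-- the kernel of the tests (A): centred divisibility and a frequency -/
noncomputable def kA (q r₀ : ℕ) (α : ℝ) (t : ℕ) : ℂ := (DR q (r₀ + t) : ℂ) * ee (-(α * t))

/-- the kernel of the tests (B): divisibility and a frequency -/
noncomputable def kB (q r₀ : ℕ) (β : ℝ) (t : ℕ) : ℂ :=
  (if q ∣ r₀ + t then (q : ℂ) else 0) * ee (-(β * t))

/-- the mean of `f c` over the window of length `2 ^ w` -/
noncomputable def wm (f : ℕ → ℝ) (w : ℕ) (c : ℕ → ℂ) : ℂ :=
  (∑ t ∈ range (2 ^ w), (f t : ℂ) * c t) / 2 ^ w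

/-- the numbers `S` cover the large Fourier coefficients of the window -/
def Cov (f : ℕ → ℝ) (w : ℕ) (S : Fin 4 → ℝ) (C₀ : ℝ) : Prop :=
  ∀ α : ℝ, 1 / 2 ≤ ‖wm f w (fun t => ee (-(α * t)))‖ → ∃ i, nd (α - S i) ≤ C₀ / 2 ^ w

/-- the number `β` is far from the numbers `S` modulo the fractions with denominator `q` -/
def Far (q w : ℕ) (S : Fin 4 → ℝ) (C₀ : ℝ) (β : ℝ) : Prop :=
  ∀ (i : Fin 4) (b : ℤ), C₀ / 2 ^ w ≤ nd (β - S i - (b : ℝ) / q)

/-- the letters of the window of `n` -/
def ltr {N : ℕ} (x : ZMod N → Bool) (n : ZMod N) (t : ℕ) : ℝ := sg (x (n + (t : ZMod N)))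

end Pool.Agent.H93.ES
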