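import Pool.Agent.H93.ES.Targets

/-!
# Row WNT: the entropy of words near few models
-/

set_option autoImplicit false

open Finset Pool.Agent.H18.MR Pool.Agent.H93.DE Pool.Agent.H6.N4D Pool.Agent.H93 Pool.Agent.H93.ES

namespace Pool.Agent.H93.ES

lemma wnt_small (C : ℕ) (η : ℝ) (hη : 0 < η) (hC : 1 ≤ C) : ∃ s₀ : ℕ, ∀ s, s₀ ≤ s →
    C * Real.log (((C * 2 ^ s : ℕ) : ℝ)) + Real.log 2 ≤ η * 2 ^ s := by
  have h1 : Filter.Tendsto (fun s : ℕ => (s : ℝ) ^ 1 / 2 ^ s) Filter.atTop (nhds 0) :=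
    tendsto_pow_const_div_const_pow_of_one_lt 1 (by norm_num)
  have h2 : Filter.Tendsto (fun s : ℕ => (s : ℝ) ^ 0 / 2 ^ s) Filter.atTop (nhds 0) :=
    tendsto_pow_const_div_const_pow_of_one_lt 0 (by norm_num)
  have h3 : Filter.Tendsto (fun s : ℕ => (C * Real.log C + Real.log 2) * ((s : ℝ) ^ 0 / 2 ^ s) +
      C * Real.log 2 * ((s : ℝ) ^ 1 / 2 ^ s)) Filter.atTop (nhds 0) := by
    have := (h2.const_mul (C * Real.log C + Real.log 2)).add (h1.const_mul (C * Real.log 2))
    simpa using this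
  obtain ⟨s₀, hs⟩ := (Filter.eventually_atTop.1 (h3.eventually (gt_mem_nhds hη)))
  refine ⟨s₀, fun s hs0 => ?_⟩
  have h4 := hs s hs0
  have hC0 : (0 : ℝ) < C := by exact_mod_cast hC
  have hp : (0 : ℝ) < 2 ^ s := by positivity
  have h5 : Real.log (((C * 2 ^ s : ℕ) : ℝ)) = Real.log C + s * Real.log 2 := by
    push_cast
    rw [Real.log_mul hC0.ne' hp.ne', Real.log_pow]
  rw [h5]
  have h6 : (C * Real.log C + Real.log 2) * ((s : ℝ) ^ 0 / 2 ^ s) +
      C * Real.log 2 * ((s : ℝ) ^ 1 / 2 ^ s) =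
      (C * (Real.log C + s * Real.log 2) + Real.log 2) / 2 ^ s := by
    field_simp
    ring
  rw [h6, div_lt_iff₀ hp] at h4
  exact h4.le

theorem pf_WNT (h1 : T_WN1) (h2 : T_WN2) (h3 : T_WN3) : T_WNT := by
  classical
  intro δ hδ hδ1 R
  obtain ⟨C, hC, h1⟩ := h1 R
  have hlog : 69 / 100 ≤ Real.log (1 / δ) := by
    have h4 : (2 : ℝ) ≤ 1 / δ := by
      rw [le_div_iff₀ hδ]
      linarith
    have h5 := Real.log_le_log (by norm_num) h4
    have h6 := Real.log_two_gt_d9
    linarith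
  obtain ⟨s₀, hs₀⟩ := wnt_small C (δ * Real.log (1 / δ)) (by positivity) hC
  refine ⟨s₀, ?_⟩
  intro s N _ x b β E hs hb hE
  set L : ℕ := 2 ^ s with hL
  have hL1 : 1 ≤ L := Nat.one_le_two_pow
  have hLr : (0 : ℝ) < L := by exact_mod_cast hL1
  have hLc : (L : ℝ) = 2 ^ s := by rw [hL]; push_cast; rfl
  obtain ⟨𝒞, hcard, hnet⟩ := h1 L hL1
  set B : (Fin L → Bool) → Finset (Fin L → Bool) := fun c =>
    (univ : Finset (Fin L → Bool)).filter (fun v =>
      (((univ : Finset (Fin L)).filter (fun t => v t ≠ c t)).card : ℝ) ≤ δ * L) with hB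
  set T := 𝒞.biUnion B with hT
  have hTne : T.Nonempty := by
    obtain ⟨c, hc, _⟩ := hnet (fun _ => 0) (fun _ => 0) (by simp)
    refine ⟨c, mem_biUnion.2 ⟨c, hc, ?_⟩⟩
    rw [hB]
    simp only [mem_filter, mem_univ, true_and, ne_eq, not_true_eq_false, filter_false, card_empty,
      Nat.cast_zero]
    positivity
  have hTcard : (T.card : ℝ) ≤ ((C * L : ℕ) : ℝ) ^ C *
      Real.exp (L * (δ + δ * Real.log (1 / δ))) := by
    calc (T.card : ℝ) ≤ ((∑ c ∈ 𝒞, (B c).card : ℕ) : ℝ) := by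
          exact_mod_cast card_biUnion_le
      _ = ∑ c ∈ 𝒞, ((B c).card : ℝ) := by push_cast; rfl
      _ ≤ ∑ _c ∈ 𝒞, Real.exp (L * (δ + δ * Real.log (1 / δ))) :=
          sum_le_sum fun c _ => h2 L δ c hδ (by linarith)
      _ = 𝒞.card * Real.exp (L * (δ + δ * Real.log (1 / δ))) := by
          rw [sum_const, nsmul_eq_mul]
      _ ≤ _ := by gcongr
  have hTpos : (0 : ℝ) < T.card := by exact_mod_cast hTne.card_pos
  have hTlog : Real.log T.card ≤ C * Real.log (((C * L : ℕ) : ℝ)) +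
      L * (δ + δ * Real.log (1 / δ)) := by
    have h4 := Real.log_le_log hTpos hTcard
    have hCL : (0 : ℝ) < ((C * L : ℕ) : ℝ) := by
      exact_mod_cast Nat.mul_pos (by omega) (by omega)
    rwa [Real.log_mul (by positivity) (Real.exp_pos _).ne', Real.log_pow, Real.log_exp] at h4
  -- probability
  have hEn : ∀ n, 0 ≤ E n := fun n => le_trans (by positivity) (hE n)
  have hpt : ∀ n, wd x L n ∉ T → 1 ≤ 5 / 4 * (E n / δ) := by
    intro n hn
    obtain ⟨c, hc, hv⟩ := hnet (b n) (β n) (hb n)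
    have h4 := hv (wd x L n)
    have h5 : ∑ t : Fin L, ‖(sg (wd x L n t) : ℂ) -
        ∑ r ∈ range R, b n r * ee (β n r * (t : ℕ))‖ ^ 2 =
        ∑ t ∈ range (2 ^ s), ‖(ltr x n t : ℂ) - ∑ r ∈ range R, b n r * ee (β n r * t)‖ ^ 2 := by
      rw [← hL, ← Fin.sum_univ_eq_sum_range (fun t : ℕ => ‖(ltr x n t : ℂ) -
        ∑ r ∈ range R, b n r * ee (β n r * t)‖ ^ 2) L]
      rfl
    rw [h5] at h4
    have h6 := hE n
    rw [div_le_iff₀ (by positivity)] at h6
    have h7 : ¬ ((((univ : Finset (Fin L)).filter (fun t => wd x L n t ≠ c t)).card : ℝ) ≤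
        δ * L) := by
      intro h
      apply hn
      rw [hT, mem_biUnion]
      refine ⟨c, hc, ?_⟩
      rw [hB]
      simp only [mem_filter, mem_univ, true_and]
      exact h
    push Not at h7
    have h8 : δ * L ≤ 5 / 4 * (E n * L) := by
      rw [← hLc] at h6
      linarith
    have h9 : δ ≤ 5 / 4 * E n := by
      have : δ * L ≤ (5 / 4 * E n) * L := by linarith
      exact le_of_mul_le_mul_right this hLr
    have h10 : 5 / 4 * (E n / δ) = (5 / 4 * E n) / δ := by ring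
    rw [h10, le_div_iff₀ hδ]
    linarith
  have hP : (unif N).P {n | wd x L n ∉ T} ≤ 5 / 4 * (avZ E / δ) := by
    unfold unif avZ
    simp only [Set.mem_setOf_eq]
    have hN : (0 : ℝ) < N := by exact_mod_cast NeZero.pos N
    rw [div_le_iff₀ hN]
    have h4 : 5 / 4 * ((∑ n, E n) / N / δ) * N = ∑ n, 5 / 4 * (E n / δ) := by
      rw [← mul_sum, ← sum_div]
      field_simp
    rw [h4, card_eq_sum_ones, sum_filter]
    push_cast
    refine sum_le_sum fun n _ => ?_
    by_cases h : wd x L n ∈ T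
    · have := hEn n
      simp only [h, not_true_eq_false, if_false]
      positivity
    · simp only [h, not_false_eq_true, if_true]
      exact hpt n h
  have hav : 0 ≤ avZ E := by
    unfold avZ
    exact div_nonneg (sum_nonneg fun n _ => hEn n) (Nat.cast_nonneg _)
  have hmain := h3 (ZMod N) (Fin L → Bool) (unif N) (fun n => wd x L n) T hTne
  have hcardB : Real.log (Fintype.card (Fin L → Bool)) = L * Real.log 2 := by
    rw [Fintype.card_fun, Fintype.card_bool, Fintype.card_fin]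
    push_cast
    rw [Real.log_pow]
  rw [hcardB] at hmain
  have hl2 := Real.log_two_lt_d9
  have hl2' := Real.log_two_gt_d9
  have hsm := hs₀ s hs
  rw [← hLc] at hsm
  have hprob : (unif N).P {n | wd x L n ∉ T} * (L * Real.log 2) ≤ avZ E / δ * L := by
    calc (unif N).P {n | wd x L n ∉ T} * (L * Real.log 2) ≤
        5 / 4 * (avZ E / δ) * (L * Real.log 2) := by gcongr
      _ = avZ E / δ * L * (5 / 4 * Real.log 2) := by ring
      _ ≤ avZ E / δ * L * 1 := by
          gcongr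
          linarith
      _ = avZ E / δ * L := by ring
  rw [← hLc, div_le_iff₀ hLr]
  have h11 : δ ≤ 3 / 2 * (δ * Real.log (1 / δ)) := by nlinarith
  have h12 : ent (unif N) (fun n => wd x L n) ≤ C * Real.log (((C * L : ℕ) : ℝ)) +
      L * (δ + δ * Real.log (1 / δ)) + avZ E / δ * L + Real.log 2 := by linarith
  refine h12.trans ?_
  have h13 : L * (δ + δ * Real.log (1 / δ)) ≤ L * (5 / 2 * (δ * Real.log (1 / δ))) := by
    gcongr
    linarith
  have h14 : 0 ≤ δ * Real.log (1 / δ) * L := by positivity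
  nlinarith

end Pool.Agent.H93.ES
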